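import Mathlib

open MeasureTheory Filter Topology Set

namespace Pool.Agent.X194.AB

abbrev I := List ℕ
abbrev Zs := I → Bool

/-- `e` is a consistent evaluation of the labelled tree `z`. -/
def Cons (z e : Zs) : Prop := ∀ s, (z s = true → e s = true) ∧
  (z s = false → e s = true → ∀ m, e (s ++ [m]) = false) ∧
  (z s = false → e s = false → ∃ n, e (s ++ [n]) = true)

theorem Cons.sub {z e : Zs} (h : Cons z e) (n : ℕ) :
    Cons (fun s => z (n :: s)) (fun s => e (n :: s)) := fun s => h (n :: s)

abbrev X0 := I → ℕ

open Classical in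
/-- labels -/
noncomputable def lab (c : ℕ) (x : X0) : Bool :=
  match c with
  | 0 => false
  | 1 => true
  | c + 2 => decide (x ∈ MeasurableSpace.natGeneratingSequence X0 c)

/-- The set `B` has a code. -/
def Coded (B : Set X0) : Prop :=
  ∃ b : X0, ∀ x e, Cons (fun s => lab (b s) x) e → (e [] = true ↔ x ∈ B)

/-- code of NOR -/
def norCode (b : ℕ → X0) : X0
  | [] => 0
  | n :: s => b n s

/-- code of a leaf -/
def leafCode (c : ℕ) : X0
  | [] => c
  | _ :: _ => 1

theorem coded_nor (B : ℕ → Set X0) (h : ∀ n, Coded (B n)) : Coded (⋃ n, B n)ᶜ := by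
  choose b hb using h
  refine ⟨norCode b, fun x e he => ?_⟩
  have h0 := he []
  have hz : lab (norCode b []) x = false := rfl
  have hsub : ∀ n, (e [n] = true ↔ x ∈ B n) := by
    intro n
    exact hb n x (fun s => e (n :: s)) (he.sub n)
  rw [Set.mem_compl_iff, Set.mem_iUnion]
  constructor
  · intro h1 ⟨n, hn⟩
    have h2 := h0.2.1 hz h1 n
    rw [List.nil_append, (hsub n).mpr hn] at h2
    exact absurd h2 (by decide)
  · intro h1
    by_contra h2
    rw [Bool.not_eq_true] at h2
    obtain ⟨n, hn⟩ := h0.2.2 hz h2
    exact h1 ⟨n, (hsub n).mp hn⟩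

theorem coded_leaf (c : ℕ) (B : Set X0) (h : ∀ x, lab c x = true ↔ x ∈ B) : Coded B := by
  refine ⟨leafCode c, fun x e he => ?_⟩
  rw [← h]
  have h0 := he []
  have h1 := he [0]
  have hc : ∀ n, e [n] = true := fun n => (he [n]).1 rfl
  constructor
  · intro h2
    by_contra h3
    rw [Bool.not_eq_true] at h3
    have h4 := h0.2.1 h3 h2 0
    rw [List.nil_append, hc 0] at h4
    exact absurd h4 (by decide)
  · intro h2
    exact h0.1 h2

theorem coded_of_measurable (B : Set X0) (hB : MeasurableSet B) : Coded B := by
  have hcompl : ∀ B : Set X0, Coded B → Coded Bᶜ := by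
    intro B h
    have := coded_nor (fun _ => B) (fun _ => h)
    rwa [Set.iUnion_const] at this
  have hgen := MeasurableSpace.generateFrom_natGeneratingSequence X0
  rw [← hgen] at hB
  induction B, hB using MeasurableSpace.generateFrom_induction with
  | hC t ht _ =>
    obtain ⟨c, rfl⟩ := ht
    exact coded_leaf (c + 2) _ (fun x => by simp [lab])
  | empty => exact coded_leaf 0 _ (fun x => by simp [lab])
  | compl t _ ih => exact hcompl _ ih
  | iUnion f _ ih =>
    have := hcompl _ (coded_nor f ih)
    rwa [compl_compl] at this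

theorem measurable_lab (c : ℕ) : Measurable (lab c) := by
  classical
  match c with
  | 0 => exact measurable_const
  | 1 => exact measurable_const
  | c + 2 =>
    apply measurable_to_bool
    have : (lab (c + 2)) ⁻¹' {true} = MeasurableSpace.natGeneratingSequence X0 c := by
      ext x; simp [lab]
    rw [this]
    exact MeasurableSpace.measurableSet_natGeneratingSequence c

/-- There is no Borel consistent evaluation. -/
theorem no_measurable_eval (E : Zs → Zs) (hE : Measurable E) : ¬ ∀ z, Cons z (E z) := by
  intro h
  have h1 : Measurable (fun x : X0 => (fun s => lab (x s) x : Zs)) := by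
    apply measurable_pi_lambda
    intro s
    have h2 : Measurable (fun p : ℕ × X0 => lab p.1 p.2) :=
      measurable_from_prod_countable_right (fun c => measurable_lab c)
    have h3 : Measurable (fun x : X0 => (x s, x)) := (measurable_pi_apply s).prodMk measurable_id
    exact h2.comp h3
  have hB : MeasurableSet {x : X0 | (E (fun s => lab (x s) x)) [] = false} := by
    have h3 : Measurable (fun x : X0 => (E (fun s => lab (x s) x)) []) :=
      (measurable_pi_apply []).comp (hE.comp h1)
    exact h3 (MeasurableSet.of_discrete (s := {false}))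
  obtain ⟨b, hb⟩ := coded_of_measurable _ hB
  have h4 := hb b _ (h _)
  rw [Set.mem_ofPred_eq] at h4
  cases h5 : E (fun s => lab (b s) b) [] with
  | true => rw [h5] at h4; exact absurd (h4.mp rfl) (by decide)
  | false => rw [h5] at h4; exact absurd (h4.mpr rfl) (by decide)

end Pool.Agent.X194.AB
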