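import Pool.Agent.X194.AB.Diag

open MeasureTheory Filter Topology Set
open scoped ENNReal

namespace Pool.Agent.X194.AB

/-- forced values -/
inductive V (z : Zs) : I → Bool → Prop
  | leaf {s : I} : z s = true → V z s true
  | pos {s : I} : z s = false → (∀ n, V z (s ++ [n]) false) → V z s true
  | neg {s : I} {n : ℕ} : z s = false → V z (s ++ [n]) true → V z s false

theorem V_unique {z : Zs} {s : I} {b : Bool} (h : V z s b) : ∀ b', V z s b' → b = b' := by
  induction h with
  | leaf hz =>
    intro b' h'
    cases h' with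
    | leaf _ => rfl
    | pos _ _ => rfl
    | neg hz' _ => rw [hz] at hz'; exact absurd hz' (by decide)
  | pos hz _ ih =>
    intro b' h'
    cases h' with
    | leaf _ => rfl
    | pos _ _ => rfl
    | neg _ h2 => exact absurd (ih _ _ h2) (by decide)
  | neg hz _ ih =>
    intro b' h'
    cases h' with
    | leaf hz' => rw [hz] at hz'; exact absurd hz' (by decide)
    | pos _ h2 => exact absurd (ih _ (h2 _)) (by decide)
    | neg _ _ => rfl

abbrev Fam := I → Bool → Set Zs

/-- the one-step operator -/
def Gam (P : Fam) : Fam := fun s b =>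
  match b with
  | true => {z | z s = true ∨ (z s = false ∧ ∀ n, z ∈ P (s ++ [n]) false)}
  | false => {z | z s = false ∧ ∃ n, z ∈ P (s ++ [n]) true}

theorem Gam_mono {P Q : Fam} (h : ∀ s b, P s b ⊆ Q s b) (s : I) (b : Bool) :
    Gam P s b ⊆ Gam Q s b := by
  cases b with
  | true =>
    rintro z (hz | ⟨hz, hz'⟩)
    · left; exact hz
    · right; exact ⟨hz, fun n => h _ _ (hz' n)⟩
  | false =>
    rintro z ⟨hz, n, hn⟩
    exact ⟨hz, n, h _ _ hn⟩

/-- good families -/
structure Ok (P : Fam) : Prop where
  meas : ∀ s b, MeasurableSet (P s b)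
  le : ∀ s b, P s b ⊆ Gam P s b
  val : ∀ s b, ∀ z ∈ P s b, V z s b

theorem measurableSet_coord (s : I) (b : Bool) : MeasurableSet {z : Zs | z s = b} := by
  have h : Measurable (fun z : Zs => z s) := measurable_pi_apply s
  exact h (MeasurableSet.of_discrete (s := {b}))

theorem Ok.gam {P : Fam} (h : Ok P) : Ok (Gam P) where
  meas := by
    intro s b
    cases b with
    | true =>
      have : Gam P s true = {z | z s = true} ∪ ({z | z s = false} ∩ ⋂ n, P (s ++ [n]) false) := by
        ext z; simp [Gam]
      rw [this]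
      exact (measurableSet_coord s true).union
        ((measurableSet_coord s false).inter (MeasurableSet.iInter fun n => h.meas _ _))
    | false =>
      have : Gam P s false = {z | z s = false} ∩ ⋃ n, P (s ++ [n]) true := by
        ext z; simp [Gam]
      rw [this]
      exact (measurableSet_coord s false).inter (MeasurableSet.iUnion fun n => h.meas _ _)
  le := fun s b => Gam_mono h.le s b
  val := by
    intro s b z hz
    cases b with
    | true =>
      rcases hz with hz | ⟨hz, hz'⟩
      · exact V.leaf hz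
      · exact V.pos hz (fun n => h.val _ _ z (hz' n))
    | false =>
      obtain ⟨hz, n, hn⟩ := hz
      exact V.neg hz (h.val _ _ z hn)

theorem Ok.iUnion {P : ℕ → Fam} (h : ∀ k, Ok (P k)) : Ok (fun s b => ⋃ k, P k s b) where
  meas := fun s b => MeasurableSet.iUnion fun k => (h k).meas s b
  le := by
    intro s b z hz
    obtain ⟨k, hk⟩ := Set.mem_iUnion.mp hz
    exact Gam_mono (fun s b => Set.subset_iUnion (fun k => P k s b) k) s b ((h k).le s b hk)
  val := by
    intro s b z hz
    obtain ⟨k, hk⟩ := Set.mem_iUnion.mp hz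
    exact (h k).val s b z hk

theorem exists_fix (μ : Measure Zs) [IsProbabilityMeasure μ] :
    ∃ P : Fam, Ok P ∧ ∀ s b, μ (Gam P s b \ P s b) = 0 := by
  obtain ⟨c, hc0, hc1⟩ := ENNReal.exists_pos_sum_of_countable' (ε := 1) one_ne_zero (I × Bool)
  set W : Fam → ℝ≥0∞ := fun P => ∑' i : I × Bool, c i * μ (P i.1 i.2) with hW
  have hWle : ∀ P, W P ≤ 1 := by
    intro P
    refine le_trans (ENNReal.tsum_le_tsum fun i => ?_) hc1.le
    calc c i * μ (P i.1 i.2) ≤ c i * 1 := by gcongr; exact prob_le_one
      _ = c i := mul_one _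
  set A : Set ℝ≥0∞ := W '' {P | Ok P} with hA
  have hne : A.Nonempty := by
    refine ⟨_, (fun _ _ => ∅), ?_, rfl⟩
    exact ⟨fun _ _ => MeasurableSet.empty, fun _ _ => Set.empty_subset _, fun _ _ z hz => absurd hz (Set.notMem_empty z)⟩
  obtain ⟨u, _, hu1, hu2⟩ := exists_seq_tendsto_sSup hne (OrderTop.bddAbove A)
  choose Pk hPk hPku using hu2
  set P : Fam := fun s b => ⋃ k, Pk k s b with hP
  have hOk : Ok P := Ok.iUnion hPk
  have hmax : ∀ Q, Ok Q → W Q ≤ W P := by
    intro Q hQ
    refine le_trans (le_sSup (show W Q ∈ A from ⟨Q, hQ, rfl⟩)) ?_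
    refine le_of_tendsto' hu1 fun k => ?_
    rw [← hPku k]
    exact ENNReal.tsum_le_tsum fun i => by
      gcongr
      exact Set.subset_iUnion (fun k => Pk k i.1 i.2) k
  refine ⟨P, hOk, fun s b => ?_⟩
  by_contra hpos
  have hlt : μ (P s b) < μ (Gam P s b) := by
    have h1 := measure_sdiff_add_inter (μ := μ) (Gam P s b) (hOk.meas s b)
    rw [Set.inter_eq_self_of_subset_right (hOk.le s b)] at h1
    rw [← h1]
    have h2 : μ (P s b) ≠ ⊤ := measure_ne_top μ _
    rw [add_comm]
    exact ENNReal.lt_add_right h2 hpos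
  have hWlt : W P < W (Gam P) := by
    refine ENNReal.tsum_lt_tsum (i := (s, b)) ?_ ?_ ?_
    · exact ne_top_of_le_ne_top ENNReal.one_ne_top (hWle P)
    · intro i
      gcongr
      exact hOk.le i.1 i.2
    · refine ENNReal.mul_lt_mul_right (hc0 (s, b)).ne' ?_ hlt
      exact ne_top_of_le_ne_top ENNReal.one_ne_top ((ENNReal.le_tsum (s, b)).trans hc1.le)
  exact absurd (hmax _ hOk.gam) (not_le.mpr hWlt)

open Classical in
/-- evaluation from a family -/
noncomputable def ev (P : Fam) (z : Zs) : Zs := fun s =>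
  if z ∈ P s true then true else if z ∈ P s false then false else decide (Even s.length)

theorem measurable_ev {P : Fam} (h : ∀ s b, MeasurableSet (P s b)) : Measurable (ev P) := by
  classical
  apply measurable_pi_lambda
  intro s
  exact Measurable.ite (h s true) measurable_const
    (Measurable.ite (h s false) measurable_const measurable_const)

theorem cons_ev {P : Fam} (h : Ok P) {z : Zs} (hz : ∀ s b, z ∈ Gam P s b → z ∈ P s b) :
    Cons z (ev P z) := by
  classical
  have hex : ∀ s, z ∈ P s true → z ∉ P s false := by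
    intro s h1 h2
    exact absurd (V_unique (h.val _ _ z h1) _ (h.val _ _ z h2)) (by decide)
  have et : ∀ s, z ∈ P s true → ev P z s = true := fun s hs => by simp [ev, hs]
  have ef : ∀ s, z ∈ P s false → ev P z s = false := fun s hs => by
    have : z ∉ P s true := fun h1 => hex s h1 hs
    simp [ev, hs, this]
  have ed : ∀ s, z ∉ P s true → z ∉ P s false → ev P z s = decide (Even s.length) :=
    fun s h1 h2 => by simp [ev, h1, h2]
  have hlen : ∀ (s : I) (n : ℕ), Even (s ++ [n]).length ↔ ¬ Even s.length := by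
    intro s n
    rw [List.length_append, List.length_singleton, Nat.even_add_one]
  intro s
  refine ⟨fun h1 => et s (hz s true (Or.inl h1)), fun h1 h2 m => ?_, fun h1 h2 => ?_⟩
  · by_cases hT : z ∈ P s true
    · have := h.le s true hT
      rcases this with h3 | ⟨_, h3⟩
      · rw [h1] at h3; exact absurd h3 (by decide)
      · exact ef _ (h3 m)
    by_cases hF : z ∈ P s false
    · rw [ef s hF] at h2; exact absurd h2 (by decide)
    rw [ed s hT hF, decide_eq_true_iff] at h2
    have hmT : z ∉ P (s ++ [m]) true := fun h3 => hF (hz s false ⟨h1, m, h3⟩)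
    by_cases hmF : z ∈ P (s ++ [m]) false
    · exact ef _ hmF
    rw [ed _ hmT hmF, decide_eq_false_iff_not, hlen]
    exact not_not.mpr h2
  · by_cases hT : z ∈ P s true
    · rw [et s hT] at h2; exact absurd h2 (by decide)
    by_cases hF : z ∈ P s false
    · obtain ⟨_, n, hn⟩ := h.le s false hF
      exact ⟨n, et _ hn⟩
    rw [ed s hT hF, decide_eq_false_iff_not] at h2
    have : ∃ n, z ∉ P (s ++ [n]) false := by
      by_contra hcon
      push Not at hcon
      exact hT (hz s true (Or.inr ⟨h1, hcon⟩))
    obtain ⟨n, hn⟩ := this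
    refine ⟨n, ?_⟩
    by_cases hnT : z ∈ P (s ++ [n]) true
    · exact et _ hnT
    rw [ed _ hnT hn, decide_eq_true_iff, hlen]
    exact h2

/-- For every probability measure there is a Borel evaluation which is a.e. consistent. -/
theorem exists_eval (μ : Measure Zs) [IsProbabilityMeasure μ] :
    ∃ E : Zs → Zs, Measurable E ∧ ∀ᵐ z ∂μ, Cons z (E z) := by
  obtain ⟨P, hP, h0⟩ := exists_fix μ
  refine ⟨ev P, measurable_ev hP.meas, ?_⟩
  have h1 : ∀ᵐ z ∂μ, ∀ s b, z ∉ Gam P s b \ P s b := by
    rw [ae_all_iff]; intro s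
    rw [ae_all_iff]; intro b
    exact measure_eq_zero_iff_ae_notMem.mp (h0 s b)
  filter_upwards [h1] with z hz
  refine cons_ev hP fun s b hzb => ?_
  by_contra hcon
  exact hz s b ⟨hzb, hcon⟩

end Pool.Agent.X194.AB
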