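import Mathlib

open MeasureTheory Filter Topology Set
open scoped ENNReal

namespace Pool.Agent.X194.AB

section
variable {J : Type} [Countable J] (q : J → ℕ) [hqp : ∀ j, Fact (q j).Prime]

/-- the compact group -/
abbrev GG := ∀ j, ZMod (q j)

omit [Countable J] in
theorem exists_nsmul (hinj : Function.Injective q) (v g : GG q) (hv : ∀ j, v j ≠ 0)
    (F : Finset J) : ∃ n : ℕ, ∀ j ∈ F, (n • v) j = g j := by
  classical
  have hpp : Set.Pairwise (F : Set J) (Function.onFun Nat.Coprime q) := by
    intro i _ j _ hij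
    exact (Nat.coprime_primes (hqp i).out (hqp j).out).mpr (fun h => hij (hinj h))
  obtain ⟨k, hk⟩ := Nat.chineseRemainderOfFinset (fun j => (g j * (v j)⁻¹).val) q F
    (fun i _ => (hqp i).out.ne_zero) hpp
  refine ⟨k, fun j hj => ?_⟩
  have h1 := (ZMod.natCast_eq_natCast_iff _ _ _).mpr (hk j hj)
  rw [ZMod.natCast_zmod_val] at h1
  rw [Pi.smul_apply, nsmul_eq_mul, h1, mul_assoc, inv_mul_cancel₀ (hv j), mul_one]

omit [Countable J] in
theorem denseRange_nsmul (hinj : Function.Injective q) (v : GG q) (hv : ∀ j, v j ≠ 0) :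
    DenseRange (fun n : ℕ => n • v) := by
  intro g
  choose n hn using exists_nsmul q hinj v g hv
  refine mem_closure_of_tendsto (f := fun F : Finset J => n F • v) (b := atTop) ?_
    (Eventually.of_forall fun F => ⟨n F, rfl⟩)
  rw [tendsto_pi_nhds]
  intro j
  refine tendsto_const_nhds.congr' ?_
  filter_upwards [eventually_ge_atTop {j}] with F hF
  exact (hn F j (hF (Finset.mem_singleton_self j))).symm

/-- Haar measure. -/
noncomputable def haar : Measure (GG q) := Measure.addHaarMeasure ⊤

instance : Measure.IsAddHaarMeasure (haar q) := by unfold haar; infer_instance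

instance : IsProbabilityMeasure (haar q) := ⟨by
  have := Measure.addHaarMeasure_self (K₀ := (⊤ : TopologicalSpace.PositiveCompacts (GG q)))
  simpa [haar] using this⟩

theorem ergodic_add (hinj : Function.Injective q) (v : GG q) (hv : ∀ j, v j ≠ 0) :
    Ergodic (fun g => v + g) (haar q) :=
  ergodic_add_left_of_denseRange_nsmul (denseRange_nsmul q hinj v hv) (haar q)

theorem mp_haar (v : GG q) : MeasurePreserving (fun g => v + g) (haar q) (haar q) :=
  measurePreserving_add_left (haar q) v

/-- a.e. invariant functions are a.e. constant -/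
theorem ae_const {α : Type*} [MeasurableSpace α] [MeasurableSpace.CountablySeparated α] [Nonempty α]
    (hinj : Function.Injective q) (v : GG q) (hv : ∀ j, v j ≠ 0) (f : GG q → α)
    (hf : Measurable f) (h : ∀ᵐ g ∂(haar q), f (v + g) = f g) :
    ∃ c, ∀ᵐ g ∂(haar q), f g = c := by
  obtain ⟨c, hc⟩ := (ergodic_add q hinj v hv).ae_eq_const_of_ae_eq_comp₀ hf.nullMeasurable h
  exact ⟨c, hc⟩

theorem ae_shift (v : GG q) (p : GG q → Prop) (h : ∀ᵐ g ∂(haar q), p g) :
    ∀ᵐ g ∂(haar q), p (v + g) :=
  (mp_haar q v).quasiMeasurePreserving.ae (p := p) h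

/-- iterate an a.e. cocycle identity -/
theorem ae_iter {A : Type*} [AddCommMonoid A] (v : GG q) (f : GG q → A) (c : A)
    (h : ∀ᵐ g ∂(haar q), f (v + g) = f g + c) (k : ℕ) :
    ∀ᵐ g ∂(haar q), f (k • v + g) = f g + k • c := by
  induction k with
  | zero => simp
  | succ k ih =>
    have h1 := ae_shift q (k • v) (fun g => f (v + g) = f g + c) h
    filter_upwards [ih, h1] with g hg hg1
    rw [succ_nsmul', add_assoc, hg1, hg, succ_nsmul, add_assoc]

end

end Pool.Agent.X194.AB
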