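import Pool.Agent.X194.AB.Sys

open MeasureTheory Filter Topology Set
open scoped ENNReal

namespace Pool.Agent.X194.AB

/-- parametrization of the fibre over `z` -/
noncomputable def zeta (z : Zs) (g : GY) : YY := (z, aY z * g)

theorem continuous_zeta : Continuous (fun p : Zs × GY => zeta p.1 p.2) := by
  have := continuous_aY
  unfold zeta
  fun_prop

theorem zeta_add_one (z : Zs) (k : ℤ) (g : GY) : zeta z (k • (1 : GY) + g) = TY k (zeta z g) := by
  have h : aY z * (k • (1 : GY) + g) = aY z * g + k • aY z := by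
    rw [mul_add, mul_smul_comm, mul_one, add_comm]
  simp only [zeta, TY, h]

/-- the fibre measures -/
noncomputable def nuz (z : Zs) : Measure YY := (haar pr).map (zeta z)

theorem measurable_zeta (z : Zs) : Measurable (zeta z) :=
  (continuous_zeta.comp (Continuous.prodMk_right z)).measurable

instance (z : Zs) : IsProbabilityMeasure (nuz z) :=
  Measure.isProbabilityMeasure_map (measurable_zeta z).aemeasurable

theorem nuz_inv (z : Zs) (k : ℤ) : MeasurePreserving (TY k) (nuz z) (nuz z) := by
  refine ⟨(continuous_TY k).measurable, ?_⟩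
  unfold nuz
  rw [Measure.map_map (continuous_TY k).measurable (measurable_zeta z)]
  have h : TY k ∘ zeta z = zeta z ∘ (fun g => k • (1 : GY) + g) := by
    funext g
    exact (zeta_add_one z k g).symm
  rw [h, ← Measure.map_map (measurable_zeta z) (mp_haar pr _).measurable, (mp_haar pr _).map_eq]

theorem ne_zero_of_ne {i j : JY} (h : i ≠ j) : ((pr i : ℕ) : ZMod (pr j)) ≠ 0 := by
  intro h0
  rw [ZMod.natCast_eq_zero_iff] at h0
  have h1 : Fact (pr i).Prime := inferInstance
  have h2 : Fact (pr j).Prime := inferInstance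
  exact h (pr_inj ((Nat.prime_dvd_prime_iff_eq h2.out h1.out).mp h0)).symm

section
variable (Y0 : Set YY) (hfull : ∀ z, nuz z Y0ᶜ = 0) (ρ : YY → XX) (hρ : Measurable ρ)
  (heq : ∀ y ∈ Y0, ρ (TY 1 y) = SX 1 (ρ y))

include hfull in
theorem ae_mem (hY0 : MeasurableSet Y0) (z : Zs) : ∀ᵐ g ∂(haar pr), zeta z g ∈ Y0 := by
  have h := hfull z
  unfold nuz at h
  rw [Measure.map_apply (measurable_zeta z) hY0.compl] at h
  exact measure_eq_zero_iff_ae_notMem.mp h |>.mono fun g hg => by
    by_contra hcon; exact hg hcon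

include hfull heq in
theorem ae_step (hY0 : MeasurableSet Y0) (z : Zs) :
    ∀ᵐ g ∂(haar pr), ρ (zeta z (1 + g)) = SX 1 (ρ (zeta z g)) := by
  filter_upwards [ae_mem Y0 hfull hY0 z] with g hg
  have := zeta_add_one z 1 g
  rw [one_smul] at this
  rw [this]
  exact heq _ hg

include hfull hρ heq in
theorem exists_const (hY0 : MeasurableSet Y0) (z : Zs) :
    ∃ c : Zs × Zs, ∀ᵐ g ∂(haar pr), (ρ (zeta z g)).1 = c := by
  refine ae_const pr pr_inj 1 (fun j => one_ne_zero) (fun g => (ρ (zeta z g)).1)
    (measurable_fst.comp (hρ.comp (measurable_zeta z))) ?_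
  filter_upwards [ae_step Y0 hfull ρ heq hY0 z] with g hg
  rw [hg]; rfl

include hfull heq in
theorem ae_coord (hY0 : MeasurableSet Y0) (z : Zs) {c : Zs × Zs}
    (hc : ∀ᵐ g ∂(haar pr), (ρ (zeta z g)).1 = c) (j : JX) :
    ∀ᵐ g ∂(haar pr), (ρ (zeta z (1 + g))).2 j = (ρ (zeta z g)).2 j + aX c j := by
  filter_upwards [ae_step Y0 hfull ρ heq hY0 z, hc] with g hg hgc
  rw [hg]
  simp only [SX, one_smul, Pi.add_apply]
  rw [hgc]

theorem measurable_coord (hρ : Measurable ρ) (z : Zs) (j : JX) :
    Measurable (fun g : GY => (ρ (zeta z g)).2 j) :=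
  (measurable_pi_apply j).comp (measurable_snd.comp (hρ.comp (measurable_zeta z)))

include hfull hρ heq in
theorem const_fst (hY0 : MeasurableSet Y0) (z : Zs) {c : Zs × Zs}
    (hc : ∀ᵐ g ∂(haar pr), (ρ (zeta z g)).1 = c) : c.1 = z := by
  classical
  by_contra hne
  obtain ⟨s, hs⟩ : ∃ s, c.1 s ≠ z s := by
    by_contra hcon
    push Not at hcon
    exact hne (funext hcon)
  set i : JY := Sum.inl (s, c.1 s) with hi
  set j : JX := Sum.inl (s, c.1 s) with hj
  have hq : Fact (qX j).Prime := inferInstanceAs (Fact (pr i).Prime)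
  have ha : aX c j = 1 := by simp [aX, act, hj]
  have hcoord := ae_coord Y0 hfull ρ heq hY0 z hc j
  rw [ha] at hcoord
  set e : GY := Pi.single i 1 with he
  have hze : ∀ g, zeta z (e + g) = zeta z g := by
    intro g
    have h1 : aY z * e = 0 := by
      funext j'
      rw [Pi.mul_apply, Pi.zero_apply]
      by_cases hj' : j' = i
      · subst hj'
        have : aY z i = 0 := if_neg (fun h => hs h.symm)
        rw [this, zero_mul]
      · rw [he, Pi.single_eq_of_ne hj', mul_zero]
    simp only [zeta, mul_add, h1, zero_add]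
  have hiter := ae_iter pr 1 (fun g => (ρ (zeta z g)).2 j) 1 hcoord (pr i)
  have hv : ∀ j', (e + pr i • (1 : GY)) j' ≠ 0 := by
    intro j'
    rw [Pi.add_apply, Pi.smul_apply, Pi.one_apply, nsmul_eq_mul, mul_one]
    by_cases hj' : j' = i
    · subst hj'
      rw [he, Pi.single_eq_same, ZMod.natCast_self, add_zero]
      exact one_ne_zero
    · rw [he, Pi.single_eq_of_ne hj', zero_add]
      exact ne_zero_of_ne (fun h => hj' h.symm)
  obtain ⟨c', hc'⟩ := ae_const pr pr_inj (e + pr i • (1 : GY)) hv
    (fun g => (ρ (zeta z g)).2 j) (measurable_coord ρ hρ z j) (by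
      filter_upwards [hiter] with g hg
      have h1 : e + pr i • (1 : GY) + g = e + (pr i • (1 : GY) + g) := add_assoc _ _ _
      rw [h1, hze, hg]
      have h2 : (pr i • (1 : ZMod (qX j))) = 0 := by
        rw [nsmul_eq_mul, mul_one]
        exact ZMod.natCast_self (pr i)
      rw [h2, add_zero])
  have hc1 := ae_shift pr 1 _ hc'
  obtain ⟨g, hg1, hg2, hg3⟩ := (hcoord.and (hc'.and hc1)).exists
  rw [hg2, hg3] at hg1
  have h3 : (1 : ZMod (qX j)) = 0 := by
    have : c' + 0 = c' + 1 := by rw [add_zero]; exact hg1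
    exact (add_left_cancel this).symm
  exact one_ne_zero h3

include hfull hρ heq in
theorem exists_act (hY0 : MeasurableSet Y0) (hinj : Set.InjOn ρ Y0) (z : Zs) {c : Zs × Zs}
    (hc : ∀ᵐ g ∂(haar pr), (ρ (zeta z g)).1 = c) (κ : K) :
    ∃ n, act (Sum.inr (κ, n)) c = true := by
  classical
  by_contra hcon
  push Not at hcon
  set i : JY := Sum.inr κ with hi
  set e : GY := Pi.single i 1 with he
  have hcoord := ae_coord Y0 hfull ρ heq hY0 z hc
  have hall : ∀ j : JX, ∀ᵐ g ∂(haar pr), (ρ (zeta z (e + g))).2 j = (ρ (zeta z g)).2 j := by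
    intro j
    have hq : Fact (qX j).Prime := inferInstanceAs (Fact (pr (toJY j)).Prime)
    by_cases hj : act j c = true
    · have ha : aX c j = 1 := by simp [aX, hj]
      have h1 := hcoord j
      rw [ha] at h1
      have h2 := ae_shift pr e _ h1
      obtain ⟨c', hc'⟩ := ae_const pr pr_inj 1 (fun j => one_ne_zero)
        (fun g => (ρ (zeta z (e + g))).2 j - (ρ (zeta z g)).2 j)
        (((measurable_coord ρ hρ z j).comp (mp_haar pr e).measurable).sub
          (measurable_coord ρ hρ z j)) (by
          filter_upwards [h1, h2] with g hg1 hg2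
          have h3 : e + (1 + g) = 1 + (e + g) := by ring
          rw [h3, hg1, hg2]; ring)
      have h4 : ∀ᵐ g ∂(haar pr), (ρ (zeta z (e + g))).2 j = (ρ (zeta z g)).2 j + c' := by
        filter_upwards [hc'] with g hg
        rw [← hg]; ring
      have h5 := ae_iter pr e (fun g => (ρ (zeta z g)).2 j) c' h4 (pr i)
      have h6 : pr i • e = 0 := by
        rw [he, ← Pi.single_smul, nsmul_eq_mul, mul_one, ZMod.natCast_self, Pi.single_zero]
      obtain ⟨g, hg⟩ := h5.exists
      rw [h6, zero_add] at hg
      have h7 : ((pr i : ℕ) : ZMod (qX j)) * c' = 0 := by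
        rw [← nsmul_eq_mul]
        exact (left_eq_add.mp hg)
      have h8 : ((pr i : ℕ) : ZMod (qX j)) ≠ 0 := by
        apply ne_zero_of_ne
        intro h9
        rcases j with a | ⟨κ', n⟩
        · exact absurd h9 (by simp [hi, toJY])
        · have : κ = κ' := Sum.inr_injective h9
          subst this
          exact hcon n hj
      have h9 : c' = 0 := (mul_eq_zero.mp h7).resolve_left h8
      filter_upwards [h4] with g hg
      rw [hg, h9, add_zero]
    · have ha : aX c j = 0 := by simp [aX, hj]
      have h1 := hcoord j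
      rw [ha] at h1
      obtain ⟨c', hc'⟩ := ae_const pr pr_inj 1 (fun j => one_ne_zero)
        (fun g => (ρ (zeta z g)).2 j) (measurable_coord ρ hρ z j) (by
          filter_upwards [h1] with g hg
          rw [hg, add_zero])
      filter_upwards [hc', ae_shift pr e _ hc'] with g hg1 hg2
      rw [hg1, hg2]
  have hall' := ae_all_iff.mpr hall
  have hm := ae_mem Y0 hfull hY0 z
  obtain ⟨g, ⟨⟨hg1, hg2⟩, hg3⟩, hg4, hg5⟩ :=
    (((hall'.and hc).and (ae_shift pr e _ hc)).and (hm.and (ae_shift pr e _ hm))).exists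
  have h1 : ρ (zeta z (e + g)) = ρ (zeta z g) := by
    ext1
    · rw [hg2, hg3]
    · funext j; exact hg1 j
  have h2 := hinj hg5 hg4 h1
  have h3 := congrFun (congrArg Prod.snd h2) i
  simp only [zeta, Pi.mul_apply, Pi.add_apply] at h3
  have h4 : aY z i = 1 := rfl
  rw [h4, one_mul, one_mul, he, Pi.single_eq_same] at h3
  have h5 : (1 : ZMod (pr i)) = 0 := by
    have : 1 + g i = 0 + g i := by rw [zero_add]; exact h3
    exact add_right_cancel this
  exact one_ne_zero h5

include hfull hρ heq in
theorem no_embed (hY0 : MeasurableSet Y0) (hinj : Set.InjOn ρ Y0) : False := by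
  classical
  have key : ∀ z, ∃ e : Zs, Cons z e ∧ ∀ᵐ g ∂(haar pr), (ρ (zeta z g)).1 = (z, e) := by
    intro z
    obtain ⟨c, hc⟩ := exists_const Y0 hfull ρ hρ heq hY0 z
    have h1 := const_fst Y0 hfull ρ hρ heq hY0 z hc
    have h2 := exists_act Y0 hfull ρ hρ heq hY0 hinj z hc
    obtain ⟨c1, e⟩ := c
    simp only at h1
    subst h1
    exact ⟨e, cons_of_act h2, hc⟩
  choose e he1 he2 using key
  set E : Zs → Zs := fun z s => decide ((haar pr) {g | (ρ (zeta z g)).1.2 s = true} = 1) with hE
  have hEe : ∀ z, E z = e z := by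
    intro z
    funext s
    cases hes : e z s with
    | true =>
      have : (haar pr) {g | (ρ (zeta z g)).1.2 s = true} = 1 := by
        rw [← measure_univ (μ := haar pr)]
        apply measure_congr
        rw [eventuallyEq_set]
        filter_upwards [he2 z] with g hg
        simp [hg, hes]
      simp [hE, this]
    | false =>
      have : (haar pr) {g | (ρ (zeta z g)).1.2 s = true} = 0 := by
        rw [measure_eq_zero_iff_ae_notMem]
        filter_upwards [he2 z] with g hg
        simp [hg, hes]
      simp [hE, this]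
  refine no_measurable_eval E ?_ (fun z => by rw [hEe]; exact he1 z)
  apply measurable_pi_lambda
  intro s
  have hset : MeasurableSet {p : Zs × GY | (ρ (zeta p.1 p.2)).1.2 s = true} := by
    have h1 : Measurable (fun p : Zs × GY => (ρ (zeta p.1 p.2)).1.2 s) :=
      (measurable_pi_apply s).comp (measurable_snd.comp (measurable_fst.comp
        (hρ.comp continuous_zeta.measurable)))
    exact h1 (MeasurableSet.of_discrete (s := {true}))
  have h2 := measurable_measure_prodMk_left (ν := haar pr) hset
  apply measurable_to_bool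
  have h3 : (fun z => E z s) ⁻¹' {true} =
      (fun z => (haar pr) (Prod.mk z ⁻¹' {p : Zs × GY | (ρ (zeta p.1 p.2)).1.2 s = true})) ⁻¹' {1} := by
    ext z
    simp [hE]
  rw [h3]
  exact h2 (measurableSet_singleton 1)

end

end Pool.Agent.X194.AB
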