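import Pool.Agent.X194.AB.Eval
import Pool.Agent.X194.AB.Grp

open MeasureTheory Filter Topology Set
open scoped ENNReal

namespace Pool.Agent.X194.AB

abbrev K := I × ℕ
abbrev JY := (I × Bool) ⊕ K
abbrev JX := (I × Bool) ⊕ (K × ℕ)

/-- distinct primes attached to the coordinates -/
noncomputable def pr (j : JY) : ℕ := Nat.nth Nat.Prime (Encodable.encode j)

instance (j : JY) : Fact (pr j).Prime := ⟨Nat.prime_nth_prime _⟩

theorem pr_inj : Function.Injective pr :=
  (Nat.nth_injective Nat.infinite_setOfPred_prime).comp Encodable.encode_injective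

/-- the coordinate of `Y` belonging to a coordinate of `X` -/
def toJY : JX → JY
  | Sum.inl a => Sum.inl a
  | Sum.inr (κ, _) => Sum.inr κ

/-- local condition -/
def phib (a b c d : Bool) : Bool := (!a || b) && (a || !b || !c) && (a || b || d)

/-- activity of a coordinate -/
def act : JX → Zs × Zs → Bool
  | Sum.inl (s, b), p => p.1 s == b
  | Sum.inr ((s, m), n), p => phib (p.1 s) (p.2 s) (p.2 (s ++ [m])) (p.2 (s ++ [n]))

theorem cons_of_act {z e : Zs} (h : ∀ κ : K, ∃ n, act (Sum.inr (κ, n)) (z, e) = true) :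
    Cons z e := by
  intro s
  refine ⟨fun h1 => ?_, fun h1 h2 m => ?_, fun h1 h2 => ?_⟩
  · obtain ⟨n, hn⟩ := h (s, 0)
    simp only [act, phib, h1] at hn
    revert hn; cases e s <;> simp
  · obtain ⟨n, hn⟩ := h (s, m)
    simp only [act, phib, h1, h2] at hn
    revert hn; cases e (s ++ [m]) <;> simp
  · obtain ⟨n, hn⟩ := h (s, 0)
    refine ⟨n, ?_⟩
    simp only [act, phib, h1, h2] at hn
    revert hn; cases e (s ++ [n]) <;> simp

theorem act_of_cons {z e : Zs} (h : Cons z e) (κ : K) : ∃ n, act (Sum.inr (κ, n)) (z, e) = true := by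
  obtain ⟨s, m⟩ := κ
  obtain ⟨h1, h2, h3⟩ := h s
  cases hz : z s with
  | true => exact ⟨0, by simp [act, phib, hz, h1 hz]⟩
  | false =>
    cases he : e s with
    | true => exact ⟨0, by simp [act, phib, hz, he, h2 hz he m]⟩
    | false =>
      obtain ⟨n, hn⟩ := h3 hz he
      exact ⟨n, by simp [act, phib, hz, he, hn]⟩

/-- the groups -/
noncomputable abbrev GY := GG pr
noncomputable abbrev qX (j : JX) : ℕ := pr (toJY j)
noncomputable abbrev GX := GG qX

/-- translation vectors -/
noncomputable def aY (z : Zs) : GY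
  | Sum.inl (s, b) => if z s = b then 1 else 0
  | Sum.inr _ => 1

noncomputable def aX (p : Zs × Zs) : GX := fun j => if act j p = true then 1 else 0

/-- the spaces -/
abbrev YY := Zs × GY
abbrev XX := (Zs × Zs) × GX

/-- the actions -/
noncomputable def TY (k : ℤ) (y : YY) : YY := (y.1, y.2 + k • aY y.1)
noncomputable def SX (k : ℤ) (x : XX) : XX := (x.1, x.2 + k • aX x.1)

theorem continuous_aY : Continuous aY := by
  apply continuous_pi
  rintro (⟨s, b⟩ | κ)
  · have : Continuous (fun c : Bool => (if c = b then 1 else 0 : ZMod (pr (Sum.inl (s, b))))) :=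
      continuous_of_discreteTopology
    exact this.comp (continuous_apply s)
  · exact continuous_const

theorem continuous_act (j : JX) : Continuous (act j) := by
  rcases j with ⟨s, b⟩ | ⟨⟨s, m⟩, n⟩
  · have : Continuous (fun c : Bool => (c == b)) := continuous_of_discreteTopology
    exact this.comp ((continuous_apply s).comp continuous_fst)
  · have h : Continuous (fun c : Bool × Bool × Bool × Bool => phib c.1 c.2.1 c.2.2.1 c.2.2.2) :=
      continuous_of_discreteTopology
    have h2 : Continuous (fun p : Zs × Zs => (p.1 s, p.2 s, p.2 (s ++ [m]), p.2 (s ++ [n]))) := by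
      fun_prop
    exact h.comp h2

theorem continuous_aX : Continuous aX := by
  apply continuous_pi
  intro j
  have : Continuous (fun c : Bool => (if c = true then 1 else 0 : ZMod (qX j))) :=
    continuous_of_discreteTopology
  exact this.comp (continuous_act j)

theorem continuous_TY (k : ℤ) : Continuous (TY k) := by
  have := continuous_aY
  unfold TY
  fun_prop

theorem continuous_SX (k : ℤ) : Continuous (SX k) := by
  have := continuous_aX
  unfold SX
  fun_prop

theorem TY_zero (y : YY) : TY 0 y = y := by simp [TY]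
theorem SX_zero (x : XX) : SX 0 x = x := by simp [SX]
theorem TY_add (k l : ℤ) (y : YY) : TY (k + l) y = TY k (TY l y) := by
  simp only [TY, add_smul]
  rw [add_assoc, add_comm (l • aY y.1)]
theorem SX_add (k l : ℤ) (x : XX) : SX (k + l) x = SX k (SX l x) := by
  simp only [SX, add_smul]
  rw [add_assoc, add_comm (l • aX x.1)]

/-- lifting map -/
noncomputable def lift (p : Zs × Zs) (g : GY) : GX
  | Sum.inl a => g (Sum.inl a)
  | Sum.inr (κ, n) => if act (Sum.inr (κ, n)) p = true then g (Sum.inr κ) else 0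

theorem lift_add (z e : Zs) (g : GY) (k : ℤ) :
    lift (z, e) (g + k • aY z) = lift (z, e) g + k • aX (z, e) := by
  funext j
  rcases j with ⟨s, b⟩ | ⟨κ, n⟩
  · have h : (aX (z, e) (Sum.inl (s, b)) : ZMod (pr (Sum.inl (s, b)))) = aY z (Sum.inl (s, b)) := by
      simp only [aX, aY, act, beq_iff_eq]; rfl
    exact congrArg (fun x : ZMod (pr (Sum.inl (s, b))) => g (Sum.inl (s, b)) + k • x) h.symm
  · change (if act (Sum.inr (κ, n)) (z, e) = true then g (Sum.inr κ) + k • aY z (Sum.inr κ) else 0) =
      (if act (Sum.inr (κ, n)) (z, e) = true then g (Sum.inr κ) else 0) +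
        k • (if act (Sum.inr (κ, n)) (z, e) = true then 1 else 0)
    split_ifs with h
    · rfl
    · simp

theorem measurable_lift : Measurable (fun q : (Zs × Zs) × GY => lift q.1 q.2) := by
  apply measurable_pi_lambda
  rintro (a | ⟨κ, n⟩)
  · exact (measurable_pi_apply (Sum.inl a)).comp measurable_snd
  · have h1 : MeasurableSet {q : (Zs × Zs) × GY | act (Sum.inr (κ, n)) q.1 = true} := by
      have h2 : Measurable (fun q : (Zs × Zs) × GY => act (Sum.inr (κ, n)) q.1) :=
        ((continuous_act _).comp continuous_fst).measurable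
      exact h2 (MeasurableSet.of_discrete (s := {true}))
    exact Measurable.ite h1 ((measurable_pi_apply (Sum.inr κ)).comp measurable_snd) measurable_const

theorem realize (μ : Measure YY) [IsProbabilityMeasure μ] :
    ∃ Y0 : Set YY, MeasurableSet Y0 ∧ (∀ k, ∀ y ∈ Y0, TY k y ∈ Y0) ∧ μ Y0ᶜ = 0 ∧
      ∃ ρ : YY → XX, Measurable ρ ∧ (∀ k y, ρ (TY k y) = SX k (ρ y)) ∧ Set.InjOn ρ Y0 := by
  have : IsProbabilityMeasure (μ.map Prod.fst) :=
    Measure.isProbabilityMeasure_map measurable_fst.aemeasurable
  obtain ⟨E, hE, hc⟩ := exists_eval (μ.map Prod.fst)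
  have hpair : Measurable (fun z : Zs => (z, E z)) := measurable_id.prodMk hE
  set Z0 : Set Zs := {z | ∀ κ : K, ∃ n, act (Sum.inr (κ, n)) (z, E z) = true} with hZ0
  have hZ0m : MeasurableSet Z0 := by
    have : Z0 = ⋂ κ : K, ⋃ n : ℕ, (fun z => act (Sum.inr (κ, n)) (z, E z)) ⁻¹' {true} := by
      ext z; simp [hZ0]
    rw [this]
    refine MeasurableSet.iInter fun κ => MeasurableSet.iUnion fun n => ?_
    exact ((continuous_act _).measurable.comp hpair) (MeasurableSet.of_discrete (s := {true}))
  have hZ0f : (μ.map Prod.fst) Z0ᶜ = 0 := by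
    refine measure_mono_null ?_ (ae_iff.mp hc)
    intro z hz hz'
    exact hz (act_of_cons hz')
  refine ⟨Prod.fst ⁻¹' Z0, measurable_fst hZ0m, fun k y hy => hy, ?_,
    fun y => ((y.1, E y.1), lift (y.1, E y.1) y.2), ?_, fun k y => ?_, ?_⟩
  · rw [← Set.preimage_compl, ← Measure.map_apply measurable_fst hZ0m.compl]; exact hZ0f
  · have h1 : Measurable (fun y : YY => (y.1, E y.1)) := hpair.comp measurable_fst
    exact h1.prodMk (measurable_lift.comp (h1.prodMk measurable_snd))
  · change ((y.1, E y.1), lift (y.1, E y.1) (y.2 + k • aY y.1)) =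
      ((y.1, E y.1), lift (y.1, E y.1) y.2 + k • aX (y.1, E y.1))
    rw [lift_add]
  · rintro ⟨z, g⟩ hy ⟨z', g'⟩ _ heq
    simp only [Prod.mk.injEq] at heq
    obtain ⟨⟨rfl, _⟩, h2⟩ := heq
    have : g = g' := by
      funext j
      rcases j with a | κ
      · exact congrFun h2 (Sum.inl a)
      · obtain ⟨n, hn⟩ := hy κ
        have h3 := congrFun h2 (Sum.inr (κ, n))
        simp only [lift] at h3
        rw [if_pos hn, if_pos hn] at h3
        exact h3
    rw [this]

end Pool.Agent.X194.AB
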